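import Pool.Agent.Lib.MP_b65ff2_gt.V.Main

namespace Pool.Agent.Results.MP_b65ff2_gt.Disproof

open Pool.Agent.Lib.MP_b65ff2_gt Filter Topology

theorem result : ∃ (M : Type) (_ : TopologicalSpace M) (_ : T2Space M)
    (_ : SecondCountableTopology M) (_ : ChartedSpace (EuclideanSpace ℝ (Fin 3)) M)
    (_ : CompactSpace M) (_ : PathConnectedSpace M) (x : M),
    (∀ n, Subsingleton (HomotopyGroup.Pi (n + 2) M x)) ∧
    ∃ (X : Type) (_ : TopologicalSpace X) (_ : ContractibleSpace X)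
      (_ : MulAction (FundamentalGroup M x) X) (p : X → M)
      (hp : IsQuotientCoveringMap p (FundamentalGroup M x)) (e : p ⁻¹' {x}),
      (∀ γ : FundamentalGroup M x, γ⁻¹ • e.1 = (hp.isCoveringMap.monodromyPerm x γ e).1) ∧
      ∃ (I : Type) (_ : Fintype I) (_ : DecidableEq I) (deg : I → ℕ)
        (d : Matrix I I (MonoidAlgebra ℤ (FundamentalGroup M x))),
        IsCub X deg d ∧ (∀ i, deg i ≤ 3) ∧
        ∃ N : ℕ → Subgroup (FundamentalGroup M x), N 0 = ⊤ ∧ (∀ k, (N k).Normal) ∧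
          (∀ k, (N k).FiniteIndex) ∧ Antitone N ∧ ⨅ k, N k = ⊥ ∧
          (∀ k n, AddGroup.FG (SH n (MulAction.orbitRel.Quotient (N k) X))) ∧
          ∃ ρ < 0, HasL2Torsion deg d 3 ρ ∧ Tendsto (fun k => altSing X 3 (N k)) atTop (𝓝 0) :=
  neg_sing

end Pool.Agent.Results.MP_b65ff2_gt.Disproof
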