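import Pool.Agent.Lib.MP_b65ff2_gt.Final

namespace Pool.Agent.Results.MP_b65ff2_gt.Products

open Pool.Agent.Lib.MP_b65ff2_gt Filter Topology

theorem result {G1 G2 I J : Type} [Group G1] [Group G2] [Fintype I] [DecidableEq I] [Fintype J]
    [DecidableEq J] (deg1 : I → ℕ) (a : Matrix I I (MonoidAlgebra ℤ G1)) (deg2 : J → ℕ)
    (b : Matrix J J (MonoidAlgebra ℤ G2)) (ha : IsCx deg1 a) (hb : IsCx deg2 b)
    (hA : Acyclic a) (hB : Acyclic b) (z : Subgroup.center G1 = ⊥)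
    (m : ℕ) (hm : ∀ i j, deg1 i + deg2 j ≤ m)
    (N : ℕ → Subgroup (G1 × G2)) [∀ k, (N k).Normal] (fin : ∀ k, (N k).FiniteIndex)
    (anti : Antitone N) (triv : ⨅ k, N k = ⊥)
    (deg : I × J → ℕ) (hdeg : deg = fun x => deg1 x.1 + deg2 x.2)
    (d : Matrix (I × J) (I × J) (MonoidAlgebra ℤ (G1 × G2)))
    (hd : d = tens deg1 (push (MonoidHom.inl G1 G2) a) (push (MonoidHom.inr G1 G2) b)) :
    HasL2Torsion deg d m 0 ∧ Tendsto (fun k => altTors deg d m (N k)) atTop (𝓝 0) := by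
  classical
  subst hdeg hd
  let _ : ∀ k, Fintype ((G1 × G2) ⧸ N k) := fun k => Fintype.ofFinite _
  obtain ⟨A, hA, iA⟩ := hA
  obtain ⟨B, hB, iB⟩ := hB
  obtain ⟨D, h1, h2, r, h3, h4, h5⟩ := main ha hb hA iA hB iB z hm
    (fun k => QuotientGroup.mk'_surjective (N k)) fun g hg => by
      obtain ⟨k, hk⟩ : ∃ k, g ∉ N k := by
        by_contra! h
        exact hg (Subgroup.mem_bot.1 (triv ▸ Subgroup.mem_iInf.2 h))
      exact (eventually_ge_atTop k).mono fun l hl e =>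
        hk (anti hl ((QuotientGroup.eq_one_iff g).1 e))
  refine ⟨⟨D, h1, h2, r, h3, by rw [h4, mul_zero]⟩, ?_⟩
  simp only [altTors, Subgroup.index_eq_card, Nat.card_eq_fintype_card]
  exact h5

end Pool.Agent.Results.MP_b65ff2_gt.Products
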